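import Pool.Agent.Run7.h994.MC.Stm
import Pool.Agent.H96R2.EQP.Main
import Pool.Agent.H20R2.PP.EQI

/-!
# Project MC (helper994), piece EQT (helper688): equidistribution of the thin sets, from INQ, PRQ and `EqPrime`
-/

set_option autoImplicit false

namespace Run7.h688.MC2

open Finset
open Pool.Agent.H361R2.PP (HH Wm Pr BB PX Eqd SI SP ok ph EqPrime)
open Pool.Agent.W70.HR (Bw)
open Run7.h462.BPG (lam)
open Run7.h994.MC

/-- the weighted number of the `D` -/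
lemma sumK (K : ℕ) : ∃ C : ℝ, 1 ≤ C ∧ ∀ (X : ℕ) (Y : ℝ), 1 ≤ Y →
    ∑ D ∈ (PX X).powerset.filter (fun D : Finset ℕ => ∏ p ∈ D, (p : ℝ) ≤ Y), (K : ℝ) ^ D.card ≤
      C * Y ^ 2 := by
  obtain ⟨K1, hK1⟩ : ∃ K1 : ℝ, K1 = (K : ℝ) + 1 := ⟨_, rfl⟩
  have hK11 : 1 ≤ K1 := by rw [hK1]; have : (0 : ℝ) ≤ K := Nat.cast_nonneg K; linarith
  refine ⟨K1 ^ (K + 1), one_le_pow₀ hK11, fun X Y hY => ?_⟩
  have hP0 : ∀ p : ℕ, K + 1 ≤ p → K1 ≤ (p : ℝ) ^ (1 : ℝ) := by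
    intro p hp
    rw [Real.rpow_one, hK1]
    exact_mod_cast hp
  have hPX : ∀ p ∈ PX X, p.Prime := by
    intro p hp
    rw [PX, mem_filter] at hp
    exact hp.2.1
  calc ∑ D ∈ (PX X).powerset.filter (fun D : Finset ℕ => ∏ p ∈ D, (p : ℝ) ≤ Y), (K : ℝ) ^ D.card
      ≤ ∑ D ∈ (PX X).powerset.filter (fun D : Finset ℕ => ∏ p ∈ D, (p : ℝ) ≤ Y),
          K1 ^ (K + 1) * Y := by
        apply sum_le_sum
        intro D hD
        rw [mem_filter, mem_powerset] at hD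
        have h1 : (K : ℝ) ^ D.card ≤ K1 ^ D.card :=
          pow_le_pow_left₀ (Nat.cast_nonneg K) (by rw [hK1]; linarith) _
        have h2 := Pool.Agent.H20R2.EQI.pow_card_le K1 hK11 1 (K + 1) hP0 zero_le_one D
          (fun p hp => (hPX p (hD.1 hp)).one_le)
        rw [Real.rpow_one] at h2
        refine h1.trans (h2.trans ?_)
        exact mul_le_mul_of_nonneg_left hD.2 (by positivity)
    _ = (((PX X).powerset.filter (fun D : Finset ℕ => ∏ p ∈ D, (p : ℝ) ≤ Y)).card : ℝ) *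
          (K1 ^ (K + 1) * Y) := by
        rw [sum_const, nsmul_eq_mul]
    _ ≤ Y * (K1 ^ (K + 1) * Y) := by
        apply mul_le_mul_of_nonneg_right _ (by positivity)
        refine (Pool.Agent.H20R2.EQI.card_D (PX X) hPX _).trans ?_
        rw [max_eq_left (by linarith)]
    _ = K1 ^ (K + 1) * Y ^ 2 := by ring

/-- one class modulo `Wm X ∏ D` -/
lemma crt (X b r : ℕ) (D : Finset ℕ) (hb : b < Wm X) (hD : ∀ p ∈ D, p.Prime ∧ HH X < p) :
    ∃ v : ℕ, ∀ n : ℕ, (n % Wm X = b ∧ ∀ p ∈ D, n % p = r % p) ↔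
      n ≡ v [MOD Wm X * ∏ p ∈ D, p] := by
  have hcop := Pool.Agent.H20R2.EQI.cop_W X D hD
  obtain ⟨v, hv1, hv2⟩ := Nat.chineseRemainder hcop b r
  refine ⟨v, fun n => ?_⟩
  rw [Pool.Agent.H20R2.EQI.modD D (fun p hp => (hD p hp).1) n r,
    ← Nat.modEq_and_modEq_iff_modEq_mul hcop]
  have hbb : b % Wm X = b := Nat.mod_eq_of_lt hb
  constructor
  · rintro ⟨h1, h2⟩
    refine ⟨?_, h2.trans hv2.symm⟩
    have : n ≡ b [MOD Wm X] := by unfold Nat.ModEq; rw [h1, hbb]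
    exact this.trans hv1.symm
  · rintro ⟨h1, h2⟩
    refine ⟨?_, h2.trans hv2⟩
    have : n ≡ b [MOD Wm X] := h1.trans hv1
    unfold Nat.ModEq at this
    rw [this, hbb]

lemma TT_sub (s : ℝ) (d : ℕ) (t κ : ℝ) (X n : ℕ) (h : n ∈ TT s d t κ X) : n ∈ Ico X (2 * X) := by
  unfold TT at h
  exact (mem_filter.1 h).1

/-- the exponent `ε` is small -/
lemma eps_lt (d X : ℕ) (ε κ : ℝ) (hX : (1 : ℝ) ≤ X) (h1 : (X : ℝ) ^ (-lam d + ε) ≤ κ)
    (h2 : κ ≤ 1 / 4) : ε < lam d := by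
  by_contra hcon
  push Not at hcon
  have : (1 : ℝ) ≤ (X : ℝ) ^ (-lam d + ε) := Real.one_le_rpow hX (by linarith)
  linarith

lemma ei (s : ℝ) (d : ℕ) (hd : 2 ≤ d) (hI : S_INQ s d) (ε : ℝ) (K A : ℕ) (hε : 0 < ε) :
    ∃ X₀ : ℕ, ∀ X : ℕ, X₀ ≤ X → ∀ b : ℕ, b < Wm X → ∀ κ t : ℝ, (X : ℝ) ^ (-lam d + ε) ≤ κ →
      κ ≤ 1 / 4 → EI X b (TT s d t κ X) κ (ε / 256) K A := by
  obtain ⟨C, hC, hI⟩ := hI
  obtain ⟨CK, hCK, hK⟩ := sumK K
  have hd' : (2 : ℝ) ≤ d := by exact_mod_cast hd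
  have hd0 : (0 : ℝ) < d := by linarith
  obtain ⟨X₁, hX₁⟩ := Pool.Agent.H20R2.EQI.ev_large (2 * C * CK) (A + 1) (1 / 4) (by norm_num)
  obtain ⟨X₂, hX₂⟩ := Pool.Agent.H20R2.EQI.ev_large (2 * C * CK) (A + 1) (1 / (2 * (d : ℝ))) (by positivity)
  refine ⟨max (max X₁ X₂) 16, fun X hX b hb κ t hκ1 hκ2 => ?_⟩
  have hXX1 : X₁ ≤ X := ((le_max_left _ _).trans (le_max_left _ _)).trans hX
  have hXX2 : X₂ ≤ X := ((le_max_right _ _).trans (le_max_left _ _)).trans hX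
  have hX16 : 16 ≤ X := (le_max_right _ _).trans hX
  have hX' : (16 : ℝ) ≤ X := by exact_mod_cast hX16
  have hX0 : (0 : ℝ) < X := by linarith
  have hX1 : (1 : ℝ) ≤ X := by linarith
  have hεl := eps_lt d X ε κ hX1 hκ1 hκ2
  have hlam1 : lam d ≤ 1 / 4 := min_le_left _ _
  have hlam2 : lam d ≤ 1 / (d : ℝ) := min_le_right _ _
  have hκ0 : 0 < κ := lt_of_lt_of_le (Real.rpow_pos_of_pos hX0 _) hκ1
  have hlog : 1 ≤ Real.log X := by
    rw [Real.le_log_iff_exp_le (by linarith)]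
    have := Real.exp_one_lt_d9
    linarith
  have g1 := hX₁ X hXX1
  have g2 := hX₂ X hXX2
  have hW := Pool.Agent.H20R2.EQI.W_le X hX16
  have hWpos : 0 < Wm X := primorial_pos _
  have hWpos' : (0 : ℝ) < Wm X := by exact_mod_cast hWpos
  obtain ⟨E, hE⟩ : ∃ E : ℝ, E = C * ((X : ℝ) ^ (1 / (d : ℝ)) + κ * (X : ℝ) ^ (1 - 1 / (d : ℝ))) :=
    ⟨_, rfl⟩
  have hE0 : 0 ≤ E := by rw [hE]; positivity
  refine ⟨fun _ => E, ⟨?_, fun _ => hE0, ?_⟩, ?_⟩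
  · intro n _ p _ a ha
    simp at ha
  · intro D hD r _
    have hDp : ∀ p ∈ D, p.Prime ∧ HH X < p := by
      intro p hp
      have := hD hp
      rw [mem_filter, PX, mem_filter] at this
      exact this.1.2
    obtain ⟨v, hv⟩ := crt X b r D hb hDp
    have hDpos : 0 < ∏ p ∈ D, p := Finset.prod_pos (fun p hp => (hDp p hp).1.pos)
    have hset : (((SI X b).filter (fun n => n ∈ TT s d t κ X)).filter
        (fun n => ∀ p ∈ D, n % p = r % p)) =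
        (TT s d t κ X).filter (fun n : ℕ => n ≡ v [MOD Wm X * ∏ p ∈ D, p]) := by
      ext n
      rw [mem_filter, mem_filter, mem_filter, ← hv n, SI, mem_filter]
      constructor
      · rintro ⟨⟨⟨_, h2⟩, h3⟩, h4⟩
        exact ⟨h3, h2, h4⟩
      · rintro ⟨h1, h2, h3⟩
        exact ⟨⟨⟨TT_sub s d t κ X n h1, h2⟩, h1⟩, h3⟩
    rw [hset]
    have hph : ∏ p ∈ D, ph none p = ((∏ p ∈ D, p : ℕ) : ℝ) := by
      push_cast
      apply prod_congr rfl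
      intro p _
      simp [ph]
    have h := hI X (Wm X * ∏ p ∈ D, p) v (by omega) (Nat.mul_pos hWpos hDpos) κ t hκ0 (by linarith)
    have e : κ * ((X : ℝ) / Wm X) / ∏ p ∈ D, ph none p =
        κ * ((X : ℝ) / ((Wm X * ∏ p ∈ D, p : ℕ) : ℝ)) := by
      rw [hph, Nat.cast_mul, mul_div_assoc, div_div]
    rw [e, hE]
    exact h
  · obtain ⟨M, hM⟩ : ∃ M : ℝ, M = (X : ℝ) ^ (ε / 256) := ⟨_, rfl⟩
    have hM1 : 1 ≤ M := by rw [hM]; exact Real.one_le_rpow hX1 (by positivity)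
    have hM2 : M ^ 2 = (X : ℝ) ^ (ε / 128) := by
      rw [hM, ← Real.rpow_natCast, ← Real.rpow_mul hX0.le]
      congr 1
      push_cast
      ring
    have hs := hK X M hM1
    rw [← hM]
    have h1 : ∑ D ∈ (PX X).powerset.filter (fun D : Finset ℕ => ∏ p ∈ D, (p : ℝ) ≤ M),
        (K : ℝ) ^ D.card * E = (∑ D ∈ (PX X).powerset.filter
          (fun D : Finset ℕ => ∏ p ∈ D, (p : ℝ) ≤ M), (K : ℝ) ^ D.card) * E := by
      rw [sum_mul]
    rw [h1]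
    have h2 : (∑ D ∈ (PX X).powerset.filter
          (fun D : Finset ℕ => ∏ p ∈ D, (p : ℝ) ≤ M), (K : ℝ) ^ D.card) * E ≤ CK * M ^ 2 * E :=
      mul_le_mul_of_nonneg_right hs hE0
    refine h2.trans ?_
    rw [mul_div_assoc', div_div, le_div_iff₀ (by positivity)]
    have h3 : (Wm X : ℝ) * Real.log X ^ A ≤ Real.log X ^ (A + 1) := by
      rw [pow_succ, mul_comm]
      exact mul_le_mul_of_nonneg_left hW (by positivity)
    have h4 : CK * M ^ 2 * E * ((Wm X : ℝ) * Real.log X ^ A) ≤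
        CK * M ^ 2 * E * Real.log X ^ (A + 1) :=
      mul_le_mul_of_nonneg_left h3 (by positivity)
    refine h4.trans ?_
    obtain ⟨L, hL⟩ : ∃ L : ℝ, L = 2 * C * CK * Real.log X ^ (A + 1) := ⟨_, rfl⟩
    rw [← hL] at g1 g2
    have hL0 : 0 ≤ L := by rw [hL]; positivity
    have k1 : L * M ^ 2 * (X : ℝ) ^ (1 / (d : ℝ)) ≤ κ * X := by
      have hd2 : 1 / (d : ℝ) ≤ 1 / 2 := by
        apply one_div_le_one_div_of_le <;> linarith
      calc L * M ^ 2 * (X : ℝ) ^ (1 / (d : ℝ))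
          ≤ (X : ℝ) ^ (1 / 4 : ℝ) * (X : ℝ) ^ (ε / 128) * (X : ℝ) ^ (1 / 2 : ℝ) := by
            rw [hM2]
            apply mul_le_mul _ (Real.rpow_le_rpow_of_exponent_le hX1 hd2) (by positivity)
              (by positivity)
            exact mul_le_mul_of_nonneg_right g1 (by positivity)
        _ = (X : ℝ) ^ (1 / 4 + ε / 128 + 1 / 2 : ℝ) := by
            rw [Real.rpow_add hX0, Real.rpow_add hX0]
        _ ≤ (X : ℝ) ^ ((-lam d + ε) + 1) := by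
            apply Real.rpow_le_rpow_of_exponent_le hX1
            linarith
        _ = (X : ℝ) ^ (-lam d + ε) * X := by
            rw [Real.rpow_add hX0, Real.rpow_one]
        _ ≤ κ * X := mul_le_mul_of_nonneg_right hκ1 hX0.le
    have k2 : L * M ^ 2 * (X : ℝ) ^ (1 - 1 / (d : ℝ)) ≤ X := by
      calc L * M ^ 2 * (X : ℝ) ^ (1 - 1 / (d : ℝ))
          ≤ (X : ℝ) ^ (1 / (2 * (d : ℝ))) * (X : ℝ) ^ (ε / 128) * (X : ℝ) ^ (1 - 1 / (d : ℝ)) := by
            rw [hM2]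
            apply mul_le_mul_of_nonneg_right _ (by positivity)
            exact mul_le_mul_of_nonneg_right g2 (by positivity)
        _ = (X : ℝ) ^ (1 / (2 * (d : ℝ)) + ε / 128 + (1 - 1 / (d : ℝ))) := by
            rw [Real.rpow_add hX0, Real.rpow_add hX0]
        _ ≤ (X : ℝ) ^ (1 : ℝ) := by
            apply Real.rpow_le_rpow_of_exponent_le hX1
            have e1 : 1 / (2 * (d : ℝ)) = (1 / (d : ℝ)) / 2 := by
              field_simp
            rw [e1]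
            linarith
        _ = X := Real.rpow_one _
    have k3 : CK * M ^ 2 * E * Real.log X ^ (A + 1) =
        (L * M ^ 2 * (X : ℝ) ^ (1 / (d : ℝ)) + κ * (L * M ^ 2 * (X : ℝ) ^ (1 - 1 / (d : ℝ)))) / 2 := by
      rw [hL, hE]
      ring
    rw [k3]
    have k4 : κ * (L * M ^ 2 * (X : ℝ) ^ (1 - 1 / (d : ℝ))) ≤ κ * X :=
      mul_le_mul_of_nonneg_left k2 hκ0.le
    linarith

lemma ep (s : ℝ) (d : ℕ) (hP : S_PRQ s d) (ε Λ : ℝ) (K A : ℕ) (hε : 0 < ε)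
    (hε1 : ε ≤ 1) (hΛ : 0 < Λ) :
    ∃ X₀ : ℕ, ∀ X : ℕ, X₀ ≤ X → ∀ b : ℕ, b < Wm X → ∀ κ t : ℝ, (X : ℝ) ^ (-lam d + ε) ≤ κ →
      κ ≤ 1 / 4 → ∀ a₀ ∈ Bw Λ X b, EP X b a₀ (TT s d t κ X) κ (ε / 256) K A := by
  obtain ⟨X₁, hP⟩ := hP ε Λ hε hε1 hΛ
  obtain ⟨X₂, hQ⟩ := Pool.Agent.H96R2.EQP.eqPrime K (A + 1) (1 / 4) Λ (by norm_num) hΛ
  obtain ⟨CK, hCK, hK⟩ := sumK K
  obtain ⟨X₃, hX₃⟩ := Pool.Agent.H20R2.EQI.ev_large 1 1 (ε / 256) (by positivity)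
  obtain ⟨X₄, hX₄⟩ := Pool.Agent.H96R2.EQP.Pr_lower
  obtain ⟨X₅, hX₅⟩ := Pool.Agent.H20R2.EQI.ev_large (4 * CK) (A + 2) (ε / 128) (by positivity)
  obtain ⟨X₆, hX₆⟩ : ∃ X₆ : ℕ, ∀ X : ℕ, X₆ ≤ X → (2 : ℝ) ≤ Real.log X := by
    have h := (Real.tendsto_log_atTop.comp tendsto_natCast_atTop_atTop).eventually_ge_atTop 2
    obtain ⟨X₆, h⟩ := Filter.eventually_atTop.1 h
    exact ⟨X₆, fun X hX => h X hX⟩
  refine ⟨max (max (max X₁ X₂) (max X₃ X₄)) (max (max X₅ X₆) 16), fun X hX b hb κ t hκ1 hκ2 a₀ ha₀ => ?_⟩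
  have hA := (le_max_left _ _).trans hX
  have hB := (le_max_right _ _).trans hX
  have hXX1 : X₁ ≤ X := ((le_max_left _ _).trans (le_max_left _ _)).trans hA
  have hXX2 : X₂ ≤ X := ((le_max_right _ _).trans (le_max_left _ _)).trans hA
  have hXX3 : X₃ ≤ X := ((le_max_left _ _).trans (le_max_right _ _)).trans hA
  have hXX4 : X₄ ≤ X := ((le_max_right _ _).trans (le_max_right _ _)).trans hA
  have hXX5 : X₅ ≤ X := ((le_max_left _ _).trans (le_max_left _ _)).trans hB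
  have hXX6 : X₆ ≤ X := ((le_max_right _ _).trans (le_max_left _ _)).trans hB
  have hX16 : 16 ≤ X := (le_max_right _ _).trans hB
  clear hX hA hB
  have hX' : (16 : ℝ) ≤ X := by exact_mod_cast hX16
  have hX0 : (0 : ℝ) < X := by linarith
  have hX1 : (1 : ℝ) ≤ X := by linarith
  have hκ0 : 0 < κ := lt_of_lt_of_le (Real.rpow_pos_of_pos hX0 _) hκ1
  obtain ⟨ℓ, hℓ⟩ : ∃ ℓ : ℝ, ℓ = Real.log X := ⟨_, rfl⟩
  have g3 := hX₃ X hXX3
  have g4 := hX₄ X hXX4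
  have g5 := hX₅ X hXX5
  have g6 := hX₆ X hXX6
  have hW := Pool.Agent.H20R2.EQI.W_le X hX16
  rw [← hℓ] at g3 g4 g5 g6 hW
  rw [one_mul, pow_one] at g3
  have hℓ0 : 0 < ℓ := by linarith
  have hWpos : 0 < Wm X := primorial_pos _
  have hWpos' : (0 : ℝ) < Wm X := by exact_mod_cast hWpos
  have ha := ha₀
  unfold Bw at ha
  obtain ⟨Er, ⟨hEr1, hEr2, hEr3⟩, hEr4⟩ := hQ X hXX2 b hb a₀ ha
  unfold BB at ha
  rw [mem_filter, mem_Icc] at ha
  obtain ⟨⟨ha1, ha2⟩, hba⟩ := ha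
  have ha2r : (a₀ : ℝ) ≤ Λ * Real.log X := by
    have : (a₀ : ℝ) ≤ ⌊Λ * Real.log X⌋₊ := by exact_mod_cast ha2
    exact this.trans (Nat.floor_le (by rw [← hℓ]; positivity))
  have hPr0 : 0 ≤ Pr X := by unfold Pr; positivity
  have hφW : (0 : ℝ) < Nat.totient (Wm X) := by exact_mod_cast Nat.totient_pos.mpr hWpos
  obtain ⟨Ω, hΩ⟩ : ∃ Ω : ℝ, Ω = Pr X / Nat.totient (Wm X) := ⟨_, rfl⟩
  have hΩ0 : 0 ≤ Ω := by rw [hΩ]; positivity
  unfold EP
  rw [← hΩ] at hEr3 hEr4 ⊢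
  obtain ⟨Er', hEr'⟩ : ∃ Er' : Finset ℕ → ℝ, Er' = fun D : Finset ℕ =>
      if ((Wm X * ∏ p ∈ D, p : ℕ) : ℝ) ≤ (X : ℝ) ^ (ε / 64) then
        κ * Er D + κ * (X : ℝ) ^ (1 - ε / 64)
      else (X : ℝ) + κ * Ω := ⟨_, rfl⟩
  refine ⟨Er', ⟨?_, ?_, ?_⟩, ?_⟩
  · intro n hn p hp
    exact hEr1 n (mem_filter.1 hn).1 p hp
  · intro D
    rw [hEr']
    beta_reduce
    split_ifs
    · have := hEr2 D
      positivity
    · positivity
  · intro D hD r hr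
    have hDp : ∀ p ∈ D, p.Prime ∧ HH X < p := by
      intro p hp
      have := hD hp
      rw [mem_filter, PX, mem_filter] at this
      exact this.1.2
    have hDpos : 0 < ∏ p ∈ D, p := Finset.prod_pos (fun p hp => (hDp p hp).1.pos)
    rw [hEr']
    beta_reduce
    split_ifs with hq
    · obtain ⟨v, hv⟩ := crt X b r D hb hDp
      have h1 := hP X (Wm X * ∏ p ∈ D, p) v a₀ hXX1 (Nat.mul_pos hWpos hDpos) hq ha1 ha2r κ t hκ1 hκ2
      have h2 := hEr3 D hD r hr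
      have hset1 : (((SP X b a₀).filter (fun n => n ∈ TT s d t κ X)).filter
          (fun n => ∀ p ∈ D, n % p = r % p)) =
          (TT s d t κ X).filter (fun n : ℕ => n ≡ v [MOD Wm X * ∏ p ∈ D, p] ∧ (n + a₀).Prime) := by
        ext n
        rw [mem_filter, mem_filter, mem_filter, ← hv n, SP, mem_filter]
        constructor
        · rintro ⟨⟨⟨_, h2, h5⟩, h3⟩, h4⟩
          exact ⟨h3, ⟨h2, h4⟩, h5⟩
        · rintro ⟨h1, ⟨h2, h3⟩, h4⟩
          exact ⟨⟨⟨TT_sub s d t κ X n h1, h2, h4⟩, h1⟩, h3⟩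
      have hset2 : ((Ico X (2 * X)).filter (fun n => n % Wm X = b ∧ (n + a₀).Prime)).filter
          (fun n => ∀ p ∈ D, n % p = r % p) =
          (Ico X (2 * X)).filter (fun n : ℕ => n ≡ v [MOD Wm X * ∏ p ∈ D, p] ∧ (n + a₀).Prime) := by
        ext n
        rw [mem_filter, mem_filter, mem_filter, ← hv n]
        constructor
        · rintro ⟨⟨h1, h2, h5⟩, h4⟩
          exact ⟨h1, ⟨h2, h4⟩, h5⟩
        · rintro ⟨h1, ⟨h2, h3⟩, h4⟩
          exact ⟨⟨h1, h2, h4⟩, h3⟩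
      rw [hset1]
      rw [hset2] at h2
      obtain ⟨a, haa⟩ : ∃ a : ℝ, a = (((TT s d t κ X).filter
        (fun n : ℕ => n ≡ v [MOD Wm X * ∏ p ∈ D, p] ∧ (n + a₀).Prime)).card : ℝ) := ⟨_, rfl⟩
      obtain ⟨c, hcc⟩ : ∃ c : ℝ, c = (((Ico X (2 * X)).filter
        (fun n : ℕ => n ≡ v [MOD Wm X * ∏ p ∈ D, p] ∧ (n + a₀).Prime)).card : ℝ) := ⟨_, rfl⟩
      rw [← haa] at h1 ⊢
      rw [← hcc] at h1 h2
      have e : a - κ * Ω / ∏ p ∈ D, ph (some a₀) p =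
          (a - κ * c) + κ * (c - Ω / ∏ p ∈ D, ph (some a₀) p) := by ring
      rw [e]
      refine (abs_add_le _ _).trans ?_
      rw [abs_mul, abs_of_pos hκ0]
      have := mul_le_mul_of_nonneg_left h2 hκ0.le
      linarith
    · have hcard : ((((SP X b a₀).filter (fun n => n ∈ TT s d t κ X)).filter
          (fun n => ∀ p ∈ D, n % p = r % p)).card : ℝ) ≤ X := by
        have : (((SP X b a₀).filter (fun n => n ∈ TT s d t κ X)).filter
          (fun n => ∀ p ∈ D, n % p = r % p)).card ≤ (Ico X (2 * X)).card := by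
          unfold SP
          exact (card_filter_le _ _).trans ((card_filter_le _ _).trans (card_filter_le _ _))
        rw [Nat.card_Ico] at this
        have h2 : (((SP X b a₀).filter (fun n => n ∈ TT s d t κ X)).filter
          (fun n => ∀ p ∈ D, n % p = r % p)).card ≤ X := by omega
        exact_mod_cast h2
      have hph : ∏ p ∈ D, ph (some a₀) p = ∏ p ∈ D, ((p : ℝ) - 1) := by
        apply prod_congr rfl
        intro p _
        simp [ph]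
      have hprod : (1 : ℝ) ≤ ∏ p ∈ D, ((p : ℝ) - 1) := by
        have h1 : ∀ p ∈ D, (1 : ℝ) ≤ (p : ℝ) - 1 := by
          intro p hp
          have : (2 : ℝ) ≤ p := by exact_mod_cast (hDp p hp).1.two_le
          linarith
        calc (1 : ℝ) = ∏ _p ∈ D, (1 : ℝ) := by simp
          _ ≤ _ := prod_le_prod (fun _ _ => zero_le_one) h1
      rw [hph]
      have h1 : κ * Ω / ∏ p ∈ D, ((p : ℝ) - 1) ≤ κ * Ω :=
        div_le_self (by positivity) hprod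
      have h2 : 0 ≤ κ * Ω / ∏ p ∈ D, ((p : ℝ) - 1) := by positivity
      have h3 : (0 : ℝ) ≤ ((((SP X b a₀).filter (fun n => n ∈ TT s d t κ X)).filter
          (fun n => ∀ p ∈ D, n % p = r % p)).card : ℝ) := Nat.cast_nonneg _
      rw [abs_le]
      constructor <;> linarith
  · obtain ⟨M, hM⟩ : ∃ M : ℝ, M = (X : ℝ) ^ (ε / 256) := ⟨_, rfl⟩
    have hM1 : 1 ≤ M := by rw [hM]; exact Real.one_le_rpow hX1 (by positivity)
    have hM2 : M ^ 2 = (X : ℝ) ^ (ε / 128) := by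
      rw [hM, ← Real.rpow_natCast, ← Real.rpow_mul hX0.le]
      congr 1
      push_cast
      ring
    have hs := hK X M hM1
    have hq : ∀ D ∈ (PX X).powerset.filter (fun D : Finset ℕ => ∏ p ∈ D, (p : ℝ) ≤ M),
        ((Wm X * ∏ p ∈ D, p : ℕ) : ℝ) ≤ (X : ℝ) ^ (ε / 64) := by
      intro D hD
      rw [mem_filter] at hD
      push_cast
      calc (Wm X : ℝ) * ∏ p ∈ D, (p : ℝ) ≤ M * M := by
            apply mul_le_mul (hW.trans (by rw [hM]; exact g3)) hD.2 (by positivity) (by positivity)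
        _ = (X : ℝ) ^ (ε / 128) := by rw [← hM2]; ring
        _ ≤ (X : ℝ) ^ (ε / 64) := by
            apply Real.rpow_le_rpow_of_exponent_le hX1
            linarith
    rw [← hM]
    have h1 : ∑ D ∈ (PX X).powerset.filter (fun D : Finset ℕ => ∏ p ∈ D, (p : ℝ) ≤ M),
        (K : ℝ) ^ D.card * Er' D =
        κ * ∑ D ∈ (PX X).powerset.filter (fun D : Finset ℕ => ∏ p ∈ D, (p : ℝ) ≤ M),
          (K : ℝ) ^ D.card * Er D +
        (∑ D ∈ (PX X).powerset.filter (fun D : Finset ℕ => ∏ p ∈ D, (p : ℝ) ≤ M),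
          (K : ℝ) ^ D.card) * (κ * (X : ℝ) ^ (1 - ε / 64)) := by
      rw [mul_sum, sum_mul, ← sum_add_distrib]
      apply sum_congr rfl
      intro D hD
      rw [hEr']
      beta_reduce
      rw [if_pos (hq D hD)]
      ring
    have h2 : ∑ D ∈ (PX X).powerset.filter (fun D : Finset ℕ => ∏ p ∈ D, (p : ℝ) ≤ M),
        (K : ℝ) ^ D.card * Er D ≤ Ω / Real.log X ^ (A + 1) := by
      refine le_trans ?_ hEr4
      apply sum_le_sum_of_subset_of_nonneg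
      · intro D hD
        rw [mem_filter] at hD ⊢
        refine ⟨hD.1, hD.2.trans ?_⟩
        rw [hM]
        apply Real.rpow_le_rpow_of_exponent_le hX1
        linarith
      · intro D _ _
        exact mul_nonneg (by positivity) (hEr2 D)
    rw [h1]
    rw [← hℓ] at h2 ⊢
    have h3 : κ * (∑ D ∈ (PX X).powerset.filter (fun D : Finset ℕ => ∏ p ∈ D, (p : ℝ) ≤ M),
        (K : ℝ) ^ D.card * Er D) ≤ κ * (Ω / ℓ ^ (A + 1)) := mul_le_mul_of_nonneg_left h2 hκ0.le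
    have h4 : Ω / ℓ ^ (A + 1) ≤ (1 / 2) * (Ω / ℓ ^ A) := by
      have e : Ω / ℓ ^ (A + 1) = (Ω / ℓ ^ A) / ℓ := by rw [pow_succ, ← div_div]
      rw [e, div_le_iff₀ hℓ0]
      have : 0 ≤ Ω / ℓ ^ A := by positivity
      nlinarith
    have h5 : CK * M ^ 2 * (X : ℝ) ^ (1 - ε / 64) ≤ (1 / 2) * (Ω / ℓ ^ A) := by
      have t4 : (X : ℝ) / (2 * ℓ) / ℓ / ℓ ^ A ≤ Ω / ℓ ^ A := by
        apply div_le_div_of_nonneg_right _ (by positivity)
        rw [hΩ]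
        apply div_le_div₀ hPr0 g4 hφW
        have : (Nat.totient (Wm X) : ℝ) ≤ Wm X := by exact_mod_cast Nat.totient_le (Wm X)
        linarith
      have t5 : CK * M ^ 2 * (X : ℝ) ^ (1 - ε / 64) ≤ (1 / 2) * ((X : ℝ) / (2 * ℓ) / ℓ / ℓ ^ A) := by
        have e1 : (1 / 2) * ((X : ℝ) / (2 * ℓ) / ℓ / ℓ ^ A) = X / (4 * ℓ ^ (A + 2)) := by
          have e0 : (4 : ℝ) * ℓ ^ (A + 2) = 2 * (2 * ℓ * (ℓ * ℓ ^ A)) := by ring
          rw [e0, div_div, div_div]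
          field_simp
        rw [e1, le_div_iff₀ (by positivity)]
        calc CK * M ^ 2 * (X : ℝ) ^ (1 - ε / 64) * (4 * ℓ ^ (A + 2))
            = (4 * CK * ℓ ^ (A + 2)) * M ^ 2 * (X : ℝ) ^ (1 - ε / 64) := by ring
          _ ≤ (X : ℝ) ^ (ε / 128) * (X : ℝ) ^ (ε / 128) * (X : ℝ) ^ (1 - ε / 64) := by
              rw [hM2]
              apply mul_le_mul_of_nonneg_right _ (by positivity)
              exact mul_le_mul_of_nonneg_right g5 (by positivity)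
          _ = (X : ℝ) ^ (ε / 128 + ε / 128 + (1 - ε / 64)) := by
              rw [Real.rpow_add hX0, Real.rpow_add hX0]
          _ = X := by
              rw [show ε / 128 + ε / 128 + (1 - ε / 64) = 1 by ring, Real.rpow_one]
      linarith
    have h6 : (∑ D ∈ (PX X).powerset.filter (fun D : Finset ℕ => ∏ p ∈ D, (p : ℝ) ≤ M),
          (K : ℝ) ^ D.card) * (κ * (X : ℝ) ^ (1 - ε / 64)) ≤
          CK * M ^ 2 * (κ * (X : ℝ) ^ (1 - ε / 64)) :=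
      mul_le_mul_of_nonneg_right hs (by positivity)
    have h7 : CK * M ^ 2 * (κ * (X : ℝ) ^ (1 - ε / 64)) ≤ κ * ((1 / 2) * (Ω / ℓ ^ A)) := by
      have := mul_le_mul_of_nonneg_left h5 hκ0.le
      calc CK * M ^ 2 * (κ * (X : ℝ) ^ (1 - ε / 64)) = κ * (CK * M ^ 2 * (X : ℝ) ^ (1 - ε / 64)) := by
            ring
        _ ≤ _ := this
    have h8 : κ * (Ω / ℓ ^ (A + 1)) ≤ κ * ((1 / 2) * (Ω / ℓ ^ A)) :=
      mul_le_mul_of_nonneg_left h4 hκ0.le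
    have h9 : κ * Ω / ℓ ^ A = κ * ((1 / 2) * (Ω / ℓ ^ A)) + κ * ((1 / 2) * (Ω / ℓ ^ A)) := by ring
    rw [h9]
    linarith

/-- **EQT** -/
theorem eqt (s : ℝ) (d : ℕ) (hd : 2 ≤ d) (hI : S_INQ s d) (hP : S_PRQ s d) : S_EQT s d := by
  intro ε Λ K A hε hε1 hΛ
  obtain ⟨X₁, h1⟩ := ei s d hd hI ε K A hε
  obtain ⟨X₂, h2⟩ := ep s d hP ε Λ K A hε hε1 hΛ
  refine ⟨max X₁ X₂, fun X hX b hb κ t hκ1 hκ2 => ⟨?_, ?_⟩⟩
  · exact h1 X ((le_max_left _ _).trans hX) b hb κ t hκ1 hκ2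
  · exact h2 X ((le_max_right _ _).trans hX) b hb κ t hκ1 hκ2

end Run7.h688.MC2
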